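import Mathlib

/-!
Counting lemmas for the covering of integers by one residue class for each prime of a finite set:
pairs of classes, first and second moments, a maximal inequality.
-/

set_option autoImplicit false

namespace Pool.Agent.Run7.h338.CW

open Finset

open Classical in
/-- the number of `p ∈ P` with `n ≡ a p (mod p)` -/
noncomputable def r (P : Finset ℕ) (a : ℕ → ℤ) (n : ℤ) : ℕ :=
  (P.filter (fun p : ℕ => n ≡ a p [ZMOD (p : ℤ)])).card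

open Classical in
/-- the number of ordered pairs of distinct `p, q ∈ P` with `n ≡ a p (mod p)`, `n ≡ a q (mod q)` -/
noncomputable def o (P : Finset ℕ) (a : ℕ → ℤ) (n : ℤ) : ℕ :=
  (P.offDiag.filter (fun z : ℕ × ℕ => n ≡ a z.1 [ZMOD (z.1 : ℤ)] ∧ n ≡ a z.2 [ZMOD (z.2 : ℤ)])).card

lemma r_add_o (P : Finset ℕ) (a : ℕ → ℤ) (n : ℤ) : r P a n + o P a n = r P a n * r P a n := by
  classical
  have h : P.offDiag.filter (fun z : ℕ × ℕ => n ≡ a z.1 [ZMOD (z.1 : ℤ)] ∧ n ≡ a z.2 [ZMOD (z.2 : ℤ)]) =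
      (P.filter (fun p : ℕ => n ≡ a p [ZMOD (p : ℤ)])).offDiag := by
    ext z
    simp only [mem_filter, mem_offDiag]
    tauto
  unfold r o
  rw [h, offDiag_card]
  have := Nat.le_mul_self (P.filter (fun p : ℕ => n ≡ a p [ZMOD (p : ℤ)])).card
  omega

open Classical in
lemma sum_r (P : Finset ℕ) (a : ℕ → ℤ) (I : Finset ℤ) :
    ∑ n ∈ I, r P a n = ∑ p ∈ P, (I.filter (fun n : ℤ => n ≡ a p [ZMOD (p : ℤ)])).card := by
  unfold r
  simp_rw [card_filter]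
  rw [sum_comm]

open Classical in
lemma sum_o (P : Finset ℕ) (a : ℕ → ℤ) (I : Finset ℤ) :
    ∑ n ∈ I, o P a n = ∑ z ∈ P.offDiag,
      (I.filter (fun n : ℤ => n ≡ a z.1 [ZMOD (z.1 : ℤ)] ∧ n ≡ a z.2 [ZMOD (z.2 : ℤ)])).card := by
  unfold o
  simp_rw [card_filter]
  rw [sum_comm]

open Classical in
/-- the covered elements of `I` -/
noncomputable def cov (P : Finset ℕ) (a : ℕ → ℤ) (I : Finset ℤ) : Finset ℤ :=
  I.filter (fun n : ℤ => ∃ p ∈ P, n ≡ a p [ZMOD (p : ℤ)])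

lemma r_pos_iff (P : Finset ℕ) (a : ℕ → ℤ) (n : ℤ) :
    0 < r P a n ↔ ∃ p ∈ P, n ≡ a p [ZMOD (p : ℤ)] := by
  classical
  unfold r
  rw [card_pos]
  constructor
  · rintro ⟨p, hp⟩
    rw [mem_filter] at hp
    exact ⟨p, hp.1, hp.2⟩
  · rintro ⟨p, hp, h⟩
    exact ⟨p, mem_filter.2 ⟨hp, h⟩⟩

/-- first Bonferroni type inequality -/
lemma bonf (P : Finset ℕ) (a : ℕ → ℤ) (I : Finset ℤ) :
    ∑ n ∈ I, r P a n ≤ (cov P a I).card + ∑ n ∈ I, o P a n := by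
  classical
  unfold cov
  rw [card_filter, ← sum_add_distrib]
  refine sum_le_sum fun n _ => ?_
  have h := r_add_o P a n
  by_cases h0 : ∃ p ∈ P, n ≡ a p [ZMOD (p : ℤ)]
  · rw [if_pos h0]
    have h1 := (r_pos_iff P a n).2 h0
    rcases Nat.lt_or_ge (r P a n) 2 with h2 | h2
    · omega
    · nlinarith
  · rw [if_neg h0]
    have h1 : r P a n = 0 := by
      by_contra hne
      exact h0 ((r_pos_iff P a n).1 (Nat.pos_of_ne_zero hne))
    omega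

/-- Cauchy–Schwarz -/
lemma cs (P : Finset ℕ) (a : ℕ → ℤ) (I : Finset ℤ) :
    ((∑ n ∈ I, r P a n : ℕ) : ℝ) ^ 2 ≤
      ((cov P a I).card : ℝ) * ((∑ n ∈ I, r P a n : ℕ) + (∑ n ∈ I, o P a n : ℕ)) := by
  classical
  have h1 : ((∑ n ∈ I, r P a n : ℕ) : ℝ) = ∑ n ∈ cov P a I, (r P a n : ℝ) := by
    push_cast
    unfold cov
    rw [sum_filter]
    refine sum_congr rfl fun n _ => ?_
    by_cases h0 : ∃ p ∈ P, n ≡ a p [ZMOD (p : ℤ)]
    · rw [if_pos h0]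
    · rw [if_neg h0]
      have h1 : r P a n = 0 := by
        by_contra hne
        exact h0 ((r_pos_iff P a n).1 (Nat.pos_of_ne_zero hne))
      simp [h1]
  have h2 : (∑ n ∈ cov P a I, (r P a n : ℝ)) ^ 2 ≤
      ((cov P a I).card : ℝ) * ∑ n ∈ cov P a I, (r P a n : ℝ) ^ 2 := sq_sum_le_card_mul_sum_sq
  rw [h1]
  refine h2.trans ?_
  rw [← h1]
  refine mul_le_mul_of_nonneg_left ?_ (Nat.cast_nonneg _)
  have h3 : ∑ n ∈ cov P a I, (r P a n : ℝ) ^ 2 ≤ ∑ n ∈ I, (r P a n : ℝ) ^ 2 :=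
    sum_le_sum_of_subset_of_nonneg (filter_subset _ _) (fun _ _ _ => by positivity)
  refine h3.trans (le_of_eq ?_)
  push_cast
  rw [← sum_add_distrib]
  refine sum_congr rfl fun n _ => ?_
  have h := r_add_o P a n
  have h' : ((r P a n + o P a n : ℕ) : ℝ) = ((r P a n * r P a n : ℕ) : ℝ) := by rw [h]
  push_cast at h'
  rw [h']
  ring

/-! ### classes in an interval -/

open Classical in
lemma cls_lower (A B v : ℤ) {p : ℕ} (hp : 0 < p) :
    ((B : ℝ) - A) / p - 1 ≤ (((Ioc A B).filter (fun n : ℤ => n ≡ v [ZMOD (p : ℤ)])).card : ℝ) := by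
  have hp' : (0 : ℤ) < p := by exact_mod_cast hp
  have h := Int.Ioc_filter_modEq_card A B hp' v
  have hq : (0 : ℝ) < p := by exact_mod_cast hp
  have e : ((((Ioc A B).filter (fun n : ℤ => n ≡ v [ZMOD (p : ℤ)])).card : ℤ) : ℝ) =
      ((max (⌊((B : ℚ) - v) / ((p : ℤ) : ℚ)⌋ - ⌊((A : ℚ) - v) / ((p : ℤ) : ℚ)⌋) 0 : ℤ) : ℝ) := by
    rw [← h]
  have e2 : ((((Ioc A B).filter (fun n : ℤ => n ≡ v [ZMOD (p : ℤ)])).card : ℤ) : ℝ) =
      (((Ioc A B).filter (fun n : ℤ => n ≡ v [ZMOD (p : ℤ)])).card : ℝ) := by norm_cast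
  rw [← e2, e]
  have h1 : ((B : ℚ) - v) / ((p : ℤ) : ℚ) < ⌊((B : ℚ) - v) / ((p : ℤ) : ℚ)⌋ + 1 := Int.lt_floor_add_one _
  have h2 : (⌊((A : ℚ) - v) / ((p : ℤ) : ℚ)⌋ : ℚ) ≤ ((A : ℚ) - v) / ((p : ℤ) : ℚ) := Int.floor_le _
  have h3 : (((B : ℚ) - A) / p - 1 : ℚ) ≤
      ((⌊((B : ℚ) - v) / ((p : ℤ) : ℚ)⌋ - ⌊((A : ℚ) - v) / ((p : ℤ) : ℚ)⌋ : ℤ) : ℚ) := by
    push_cast at h1 h2 ⊢
    have : ((B : ℚ) - A) / p = ((B : ℚ) - v) / p - ((A : ℚ) - v) / p := by ring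
    rw [this]
    linarith
  have h4 : (((B : ℝ) - A) / p - 1 : ℝ) ≤
      ((⌊((B : ℚ) - v) / ((p : ℤ) : ℚ)⌋ - ⌊((A : ℚ) - v) / ((p : ℤ) : ℚ)⌋ : ℤ) : ℝ) := by
    have := (Rat.cast_le (K := ℝ)).2 h3
    push_cast at this ⊢
    exact this
  exact h4.trans (by exact_mod_cast le_max_left _ _)

open Classical in
lemma cls_upper {A B : ℤ} (hAB : A ≤ B) (v : ℤ) {p : ℕ} (hp : 0 < p) :
    (((Ioc A B).filter (fun n : ℤ => n ≡ v [ZMOD (p : ℤ)])).card : ℝ) ≤ ((B : ℝ) - A) / p + 1 := by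
  have hp' : (0 : ℤ) < p := by exact_mod_cast hp
  have h := Int.Ioc_filter_modEq_card A B hp' v
  have hq : (0 : ℝ) < p := by exact_mod_cast hp
  have e : ((((Ioc A B).filter (fun n : ℤ => n ≡ v [ZMOD (p : ℤ)])).card : ℤ) : ℝ) =
      ((max (⌊((B : ℚ) - v) / ((p : ℤ) : ℚ)⌋ - ⌊((A : ℚ) - v) / ((p : ℤ) : ℚ)⌋) 0 : ℤ) : ℝ) := by
    rw [← h]
  have e2 : ((((Ioc A B).filter (fun n : ℤ => n ≡ v [ZMOD (p : ℤ)])).card : ℤ) : ℝ) =
      (((Ioc A B).filter (fun n : ℤ => n ≡ v [ZMOD (p : ℤ)])).card : ℝ) := by norm_cast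
  rw [← e2, e]
  have h1 : (⌊((B : ℚ) - v) / ((p : ℤ) : ℚ)⌋ : ℚ) ≤ ((B : ℚ) - v) / ((p : ℤ) : ℚ) := Int.floor_le _
  have h2 : ((A : ℚ) - v) / ((p : ℤ) : ℚ) < ⌊((A : ℚ) - v) / ((p : ℤ) : ℚ)⌋ + 1 := Int.lt_floor_add_one _
  have h3 : ((⌊((B : ℚ) - v) / ((p : ℤ) : ℚ)⌋ - ⌊((A : ℚ) - v) / ((p : ℤ) : ℚ)⌋ : ℤ) : ℚ) ≤
      (((B : ℚ) - A) / p + 1 : ℚ) := by
    push_cast at h1 h2 ⊢
    have : ((B : ℚ) - A) / p = ((B : ℚ) - v) / p - ((A : ℚ) - v) / p := by ring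
    rw [this]
    linarith
  have h4 : ((⌊((B : ℚ) - v) / ((p : ℤ) : ℚ)⌋ - ⌊((A : ℚ) - v) / ((p : ℤ) : ℚ)⌋ : ℤ) : ℝ) ≤
      (((B : ℝ) - A) / p + 1 : ℝ) := by
    have := (Rat.cast_le (K := ℝ)).2 h3
    push_cast at this ⊢
    exact this
  rw [Int.cast_max]
  refine max_le h4 ?_
  have : (0 : ℝ) ≤ (B : ℝ) - A := by
    have : (A : ℝ) ≤ B := by exact_mod_cast hAB
    linarith
  simp only [Int.cast_zero]
  positivity

open Classical in
/-- two classes in an interval -/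
lemma pair_upper {A B : ℤ} (hAB : A ≤ B) (v w : ℤ) {p q : ℕ} (hp : p.Prime) (hq : q.Prime)
    (hpq : p ≠ q) {x : ℝ} (hx : 0 < x) (hxp : x ≤ p) (hxq : x ≤ q) :
    (((Ioc A B).filter (fun n : ℤ => n ≡ v [ZMOD (p : ℤ)] ∧ n ≡ w [ZMOD (q : ℤ)])).card : ℝ) ≤
      ((B : ℝ) - A) / x ^ 2 + 1 := by
  have hAB' : (0 : ℝ) ≤ (B : ℝ) - A := by
    have : (A : ℝ) ≤ B := by exact_mod_cast hAB
    linarith
  rcases ((Ioc A B).filter (fun n : ℤ => n ≡ v [ZMOD (p : ℤ)] ∧ n ≡ w [ZMOD (q : ℤ)])).eq_empty_or_nonempty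
    with h | ⟨n0, h0⟩
  · rw [h, card_empty]
    push_cast
    positivity
  · rw [mem_filter] at h0
    have hsub : (Ioc A B).filter (fun n : ℤ => n ≡ v [ZMOD (p : ℤ)] ∧ n ≡ w [ZMOD (q : ℤ)]) ⊆
        (Ioc A B).filter (fun n : ℤ => n ≡ n0 [ZMOD ((p * q : ℕ) : ℤ)]) := by
      intro n hn
      rw [mem_filter] at hn ⊢
      refine ⟨hn.1, ?_⟩
      have hc : ((p : ℤ)).natAbs.Coprime ((q : ℤ)).natAbs := by
        simpa using (Nat.coprime_primes hp hq).2 hpq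
      have := (Int.modEq_and_modEq_iff_modEq_mul hc).1
        ⟨hn.2.1.trans h0.2.1.symm, hn.2.2.trans h0.2.2.symm⟩
      push_cast
      exact this
    have h1 := cls_upper hAB n0 (Nat.mul_pos hp.pos hq.pos)
    have h2 : (((Ioc A B).filter (fun n : ℤ => n ≡ v [ZMOD (p : ℤ)] ∧ n ≡ w [ZMOD (q : ℤ)])).card : ℝ) ≤
        (((Ioc A B).filter (fun n : ℤ => n ≡ n0 [ZMOD ((p * q : ℕ) : ℤ)])).card : ℝ) := by
      exact_mod_cast card_le_card hsub
    refine h2.trans (h1.trans ?_)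
    have h3 : x ^ 2 ≤ ((p * q : ℕ) : ℝ) := by
      push_cast
      nlinarith
    gcongr

/-- a set of primes in `[x, 2 x)` -/
def Near (P : Finset ℕ) (x : ℝ) : Prop := ∀ p ∈ P, p.Prime ∧ x ≤ (p : ℝ) ∧ (p : ℝ) < 2 * x

lemma sum_o_le {P : Finset ℕ} {x : ℝ} (hP : Near P x) (hx : 0 < x) (a : ℕ → ℤ) {A B : ℤ}
    (hAB : A ≤ B) :
    ((∑ n ∈ Ioc A B, o P a n : ℕ) : ℝ) ≤ (P.card : ℝ) ^ 2 * (((B : ℝ) - A) / x ^ 2 + 1) := by
  classical
  have hAB' : (0 : ℝ) ≤ (B : ℝ) - A := by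
    have : (A : ℝ) ≤ B := by exact_mod_cast hAB
    linarith
  rw [sum_o]
  push_cast
  have h1 : ∀ z ∈ P.offDiag, (((Ioc A B).filter
      (fun n : ℤ => n ≡ a z.1 [ZMOD (z.1 : ℤ)] ∧ n ≡ a z.2 [ZMOD (z.2 : ℤ)])).card : ℝ) ≤
      ((B : ℝ) - A) / x ^ 2 + 1 := by
    intro z hz
    rw [mem_offDiag] at hz
    exact pair_upper hAB _ _ (hP _ hz.1).1 (hP _ hz.2.1).1 hz.2.2 hx (hP _ hz.1).2.1 (hP _ hz.2.1).2.1
  refine (sum_le_sum h1).trans ?_
  rw [sum_const, nsmul_eq_mul]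
  refine mul_le_mul_of_nonneg_right ?_ (by positivity)
  have h2 : P.offDiag.card ≤ P.card * P.card := by
    rw [offDiag_card]
    omega
  have h3 : (P.offDiag.card : ℝ) ≤ ((P.card * P.card : ℕ) : ℝ) := by exact_mod_cast h2
  push_cast at h3
  nlinarith

lemma sum_r_ge {P : Finset ℕ} {x : ℝ} (hP : Near P x) (a : ℕ → ℤ) (A B : ℤ) :
    (∑ p ∈ P, ((B : ℝ) - A) / p) - P.card ≤ ((∑ n ∈ Ioc A B, r P a n : ℕ) : ℝ) := by
  classical
  rw [sum_r]
  push_cast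
  have : (∑ p ∈ P, ((B : ℝ) - A) / p) - P.card = ∑ p ∈ P, (((B : ℝ) - A) / p - 1) := by
    rw [sum_sub_distrib, sum_const, nsmul_eq_mul, mul_one]
  rw [this]
  refine sum_le_sum fun p hp => ?_
  have := cls_lower A B (a p) (hP p hp).1.pos
  exact this

lemma sum_recip_ge {P : Finset ℕ} {x : ℝ} (hP : Near P x) (hx : 0 < x) {L : ℝ} (hL : 0 ≤ L) :
    (P.card : ℝ) * (L / (2 * x)) ≤ ∑ p ∈ P, L / (p : ℝ) := by
  have h : ∑ p ∈ P, L / (2 * x) ≤ ∑ p ∈ P, L / (p : ℝ) := by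
    refine sum_le_sum fun p hp => ?_
    have h1 := hP p hp
    have : (0 : ℝ) < p := by exact_mod_cast h1.1.pos
    gcongr
    exact h1.2.2.le
  rw [sum_const, nsmul_eq_mul] at h
  exact h

/-- a covering lemma: one sided maximal inequality -/
lemma maximal (f : ℤ → ℝ) (hf : ∀ n, 0 ≤ f n) (lam : ℝ) (D : ℤ) :
    ∀ (k : ℕ) (E : Finset ℤ) (A : ℤ), E.card ≤ k → A ≤ D → (∀ t ∈ E, A ≤ t) →
      (∀ t ∈ E, ∃ L : ℕ, 1 ≤ L ∧ t + L ≤ D ∧ lam * L ≤ ∑ n ∈ Ioc t (t + L), f n) →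
      lam * E.card ≤ ∑ n ∈ Ioc A D, f n ∨ lam ≤ 0 := by
  classical
  by_cases hlam : lam ≤ 0
  · intro k E A _ _ _ _
    exact Or.inr hlam
  push Not at hlam
  intro k
  induction k with
  | zero =>
    intro E A hE _ _ _
    left
    have : E.card = 0 := by omega
    rw [this]
    simpa using sum_nonneg (fun n _ => hf n)
  | succ k ih =>
    intro E A hE hAD hA hL
    left
    rcases E.eq_empty_or_nonempty with h0 | hne
    · subst h0
      simpa using sum_nonneg (fun n _ => hf n)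
    · obtain ⟨t0, ht0, hmin⟩ := exists_min_image E id hne
      simp only [id] at hmin
      obtain ⟨L, hL1, hLD, hLs⟩ := hL t0 ht0
      set E' := E.filter (fun t => t0 + L ≤ t) with hE'
      have hsub : E' ⊆ E := filter_subset _ _
      have hlt : E'.card < E.card := by
        refine card_lt_card ⟨hsub, fun h => ?_⟩
        have := h ht0
        rw [hE', mem_filter] at this
        omega
      have hcard : E.card ≤ E'.card + L := by
        have h1 : E ⊆ E' ∪ Ico t0 (t0 + L) := by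
          intro t ht
          rw [mem_union, hE', mem_filter, mem_Ico]
          by_cases h : t0 + L ≤ t
          · exact Or.inl ⟨ht, h⟩
          · exact Or.inr ⟨hmin t ht, by omega⟩
        have h2 := (card_le_card h1).trans (card_union_le _ _)
        have h3 : (Ico t0 (t0 + (L : ℤ))).card = L := by
          rw [Int.card_Ico]
          omega
        omega
      have hrec := ih E' (t0 + L) (by omega) hLD
        (fun t ht => by rw [hE', mem_filter] at ht; exact ht.2)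
        (fun t ht => hL t (hsub ht))
      have hrec' : lam * E'.card ≤ ∑ n ∈ Ioc (t0 + L) D, f n := by
        rcases hrec with h | h
        · exact h
        · linarith
      have hA0 : A ≤ t0 := hA t0 ht0
      have hun : ∑ n ∈ Ioc t0 (t0 + L), f n + ∑ n ∈ Ioc (t0 + L) D, f n ≤ ∑ n ∈ Ioc A D, f n := by
        rw [← sum_union]
        · refine sum_le_sum_of_subset_of_nonneg ?_ (fun n _ _ => hf n)
          intro n hn
          rw [mem_union, mem_Ioc, mem_Ioc] at hn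
          rw [mem_Ioc]
          omega
        · rw [disjoint_left]
          intro n hn hn'
          rw [mem_Ioc] at hn hn'
          omega
      have hc : (E.card : ℝ) ≤ E'.card + L := by exact_mod_cast hcard
      calc lam * E.card ≤ lam * (E'.card + L) := by gcongr
        _ = lam * E'.card + lam * L := by ring
        _ ≤ _ := by linarith

end Pool.Agent.Run7.h338.CW
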