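import Mathlib
import Pool.Agent.Run7.h338.CW.Core

/-!
Every choice of one residue class for each prime in `[x, 2 x)`: almost all translates, few bad windows,
few bad dilates.
-/

set_option autoImplicit false

namespace Pool.Agent.Run7.h338.CW

open Finset

lemma cheb {P : Finset ℕ} {x : ℝ} (hP : Near P x) (hx : 2 ≤ x) :
    (P.card : ℝ) * Real.log x ≤ 2 * Real.log 4 * x := by
  have h := Chebyshev.theta_le_log4_mul_x (x := 2 * x) (by linarith)
  have h1 : (P.card : ℝ) * Real.log x ≤ ∑ p ∈ P, Real.log (p : ℝ) := by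
    rw [← nsmul_eq_mul, ← sum_const]
    exact sum_le_sum fun p hp => Real.log_le_log (by linarith) (hP p hp).2.1
  have h2 : ∑ p ∈ P, Real.log (p : ℝ) ≤ Chebyshev.theta (2 * x) := by
    unfold Chebyshev.theta
    refine sum_le_sum_of_subset_of_nonneg ?_ ?_
    · intro p hp
      have h3 := hP p hp
      rw [mem_filter, mem_Ioc]
      exact ⟨⟨h3.1.pos, Nat.le_floor h3.2.2.le⟩, h3.1⟩
    · intro p hp _
      rw [mem_filter, mem_Ioc] at hp
      exact Real.log_nonneg (by exact_mod_cast hp.1.1)
  linarith

lemma log4_lt : Real.log 4 < 1.3863 := by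
  have h : Real.log 4 = 2 * Real.log 2 := by
    rw [show (4 : ℝ) = 2 ^ 2 by norm_num, Real.log_pow]
    norm_num
  rw [h]
  have := Real.log_two_lt_d9
  linarith

open Classical in
/-- almost all translates, all lengths at once -/
theorem main1 {P : Finset ℕ} {x : ℝ} (hP : Near P x) (hx : 2 ≤ x) (a : ℕ → ℤ) (A : ℤ) (T : ℕ)
    (hT : x ^ 2 ≤ T) (ε : ℝ) (hε : 0 < ε) (_hε1 : ε ≤ 1) :
    (((Ioc A (A + T)).filter (fun t : ℤ => ∃ L : ℕ, 4 * x / ε ≤ L ∧
      ((cov P a (Ioc t (t + L))).card : ℝ) < (1 - ε) * ∑ p ∈ P, (L : ℝ) / p)).card : ℝ) ≤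
      34 * T / (ε * Real.log x) := by
  have hx0 : 0 < x := by linarith
  have hlog : 0 < Real.log x := Real.log_pos (by linarith)
  set E := (Ioc A (A + T)).filter (fun t : ℤ => ∃ L : ℕ, 4 * x / ε ≤ L ∧
      ((cov P a (Ioc t (t + L))).card : ℝ) < (1 - ε) * ∑ p ∈ P, (L : ℝ) / p) with hE
  have hT0 : (0 : ℝ) ≤ T := Nat.cast_nonneg _
  rcases le_or_gt (ε * Real.log x) 34 with hc | hc
  · have h1 : E.card ≤ T := by
      have h2 := card_filter_le (Ioc A (A + T)) (fun t : ℤ => ∃ L : ℕ, 4 * x / ε ≤ L ∧
        ((cov P a (Ioc t (t + L))).card : ℝ) < (1 - ε) * ∑ p ∈ P, (L : ℝ) / p)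
      rw [Int.card_Ioc] at h2
      have h3 : (A + (T : ℤ) - A).toNat = T := by omega
      rw [h3] at h2
      exact h2
    have h2 : (E.card : ℝ) ≤ T := by exact_mod_cast h1
    refine h2.trans ?_
    rw [le_div_iff₀ (by positivity)]
    nlinarith
  · rcases Nat.eq_zero_or_pos P.card with hP0 | hP0
    · have : E = ∅ := by
        rw [hE, filter_eq_empty_iff]
        rintro t _ ⟨L, _, hL⟩
        rw [card_eq_zero] at hP0
        rw [hP0] at hL
        simp only [sum_empty, mul_zero] at hL
        exact absurd hL (not_lt.2 (Nat.cast_nonneg _))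
      rw [this]
      simp only [card_empty, Nat.cast_zero]
      positivity
    · have hP0' : (0 : ℝ) < P.card := by exact_mod_cast hP0
      have hcheb := cheb hP hx
      have h4 := log4_lt
      set lam : ℝ := ε * P.card / (4 * x) with hlam
      have hlam0 : 0 < lam := by positivity
      -- large overlaps
      have key : ∀ t ∈ E, ∃ L : ℕ, 1 ≤ L ∧ t + L ≤ A + 2 * T ∧
          lam * L ≤ ∑ n ∈ Ioc t (t + L), (o P a n : ℝ) := by
        intro t ht
        rw [hE, mem_filter, mem_Ioc] at ht
        obtain ⟨⟨htA, htT⟩, L, hL, hcov⟩ := ht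
        have hL0 : (0 : ℝ) < L := lt_of_lt_of_le (by positivity) hL
        have hL1 : 1 ≤ L := by
          have : 0 < L := by exact_mod_cast hL0
          omega
        have hb : ((∑ n ∈ Ioc t (t + L), r P a n : ℕ) : ℝ) ≤
            ((cov P a (Ioc t (t + L))).card : ℝ) + ((∑ n ∈ Ioc t (t + L), o P a n : ℕ) : ℝ) := by
          exact_mod_cast bonf P a (Ioc t (t + L))
        have hr := sum_r_ge hP a t (t + L)
        have e1 : (((t + (L : ℤ) : ℤ) : ℝ) - t) = L := by push_cast; ring
        rw [e1] at hr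
        have hs := sum_recip_ge hP hx0 hL0.le
        have h5 : ε * ((P.card : ℝ) * (L / (2 * x))) ≤ ε * ∑ p ∈ P, (L : ℝ) / p :=
          mul_le_mul_of_nonneg_left hs hε.le
        have h6 : (P.card : ℝ) ≤ lam * L := by
          rw [div_le_iff₀ hε] at hL
          rw [hlam, div_mul_eq_mul_div, le_div_iff₀ (by positivity)]
          nlinarith
        have h7 : ε * ((P.card : ℝ) * (L / (2 * x))) = 2 * (lam * L) := by
          rw [hlam]
          field_simp
          ring
        have hO : lam * L ≤ ((∑ n ∈ Ioc t (t + L), o P a n : ℕ) : ℝ) := by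
          nlinarith
        have hLT : L < T := by
          by_contra hge
          push Not at hge
          have hge' : (T : ℝ) ≤ L := by exact_mod_cast hge
          have h8 := sum_o_le hP hx0 a (A := t) (B := t + L) (by omega)
          rw [e1] at h8
          have h9 : (1 : ℝ) ≤ L / x ^ 2 := by
            rw [le_div_iff₀ (by positivity)]
            linarith
          have h10 : lam * L ≤ (P.card : ℝ) ^ 2 * (2 * (L / x ^ 2)) := by
            refine hO.trans (h8.trans ?_)
            gcongr
            linarith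
          have h11 : ε * x ≤ 8 * P.card := by
            have e2 : lam * L = (P.card * L / (4 * x ^ 2)) * (ε * x) := by
              rw [hlam]
              field_simp
            have e3 : (P.card : ℝ) ^ 2 * (2 * (L / x ^ 2)) = (P.card * L / (4 * x ^ 2)) * (8 * P.card) := by
              field_simp
              ring
            rw [e2, e3] at h10
            exact le_of_mul_le_mul_left h10 (by positivity)
          have h12 : ε * Real.log x * x ≤ 8 * (2 * Real.log 4 * x) := by nlinarith
          have h13 : ε * Real.log x ≤ 8 * (2 * Real.log 4) := by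
            have : ε * Real.log x * x ≤ 8 * (2 * Real.log 4) * x := by linarith
            exact le_of_mul_le_mul_right this hx0
          linarith
        refine ⟨L, hL1, by omega, ?_⟩
        push_cast at hO
        exact hO
      have hmax := maximal (fun n => (o P a n : ℝ)) (fun n => Nat.cast_nonneg _) lam (A + 2 * T)
        E.card E A le_rfl (by omega) (fun t ht => by
          rw [hE, mem_filter, mem_Ioc] at ht
          omega) key
      rcases hmax with hmax | hmax
      · have h8 := sum_o_le hP hx0 a (A := A) (B := A + 2 * T) (by omega)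
        have e1 : (((A + 2 * (T : ℤ) : ℤ) : ℝ) - A) = 2 * T := by push_cast; ring
        rw [e1] at h8
        push_cast at h8
        have h9 : (1 : ℝ) ≤ T / x ^ 2 := by
          rw [le_div_iff₀ (by positivity)]
          linarith
        have h10 : lam * E.card ≤ (P.card : ℝ) ^ 2 * (3 * (T / x ^ 2)) := by
          refine hmax.trans (h8.trans ?_)
          gcongr
          have : 2 * (T : ℝ) / x ^ 2 = 2 * (T / x ^ 2) := by ring
          rw [this]
          linarith
        have h11 : ε * x * E.card ≤ 12 * P.card * T := by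
          have e2 : lam * E.card = (P.card / (4 * x ^ 2)) * (ε * x * E.card) := by
            rw [hlam]
            field_simp
          have e3 : (P.card : ℝ) ^ 2 * (3 * (T / x ^ 2)) = (P.card / (4 * x ^ 2)) * (12 * P.card * T) := by
            field_simp
            ring
          rw [e2, e3] at h10
          exact le_of_mul_le_mul_left h10 (by positivity)
        rw [le_div_iff₀ (by positivity)]
        have h12 : (E.card : ℝ) * (ε * Real.log x) * x ≤ 34 * T * x := by
          calc (E.card : ℝ) * (ε * Real.log x) * x = (ε * x * E.card) * Real.log x := by ring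
            _ ≤ (12 * P.card * T) * Real.log x := by gcongr
            _ = 12 * T * (P.card * Real.log x) := by ring
            _ ≤ 12 * T * (2 * Real.log 4 * x) := by gcongr
            _ = (24 * Real.log 4) * (T * x) := by ring
            _ ≤ 34 * (T * x) := by
              gcongr
              linarith
            _ = 34 * T * x := by ring
        exact le_of_mul_le_mul_right h12 hx0
      · linarith

lemma sum_windows (f : ℤ → ℝ) (A : ℤ) (L : ℕ) (J : ℕ) :
    ∑ j ∈ range J, ∑ n ∈ Ioc (A + j * L) (A + (j + 1) * L), f n = ∑ n ∈ Ioc A (A + J * L), f n := by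
  classical
  induction J with
  | zero => simp
  | succ J ih =>
    rw [sum_range_succ, ih, ← sum_union]
    · congr 1
      ext n
      rw [mem_union, mem_Ioc, mem_Ioc, mem_Ioc]
      have h1 : (0 : ℤ) ≤ J * L := by positivity
      have h2 : (0 : ℤ) ≤ L := by positivity
      have h3 : ((J : ℤ) + 1) * L = J * L + L := by ring
      push_cast
      rw [h3]
      omega
    · rw [disjoint_left]
      intro n hn hn'
      rw [mem_Ioc] at hn hn'
      omega

open Classical in
/-- few bad windows -/
theorem main2 {P : Finset ℕ} {x : ℝ} (hP : Near P x) (hx : 0 < x) (a : ℕ → ℤ) (A : ℤ) (J L : ℕ)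
    (hL : 4 * x ≤ L) (X : ℝ) (hX : 0 < X) (hXP : 8 * x * X ≤ P.card * L) :
    (((range J).filter (fun j : ℕ =>
      ((cov P a (Ioc (A + j * L) (A + (j + 1) * L))).card : ℝ) ≤ X)).card : ℝ) ≤
      32 * X * (J * L + x ^ 2) / (L : ℝ) ^ 2 := by
  have hL0 : (0 : ℝ) < L := by linarith
  have hP0 : (0 : ℝ) < P.card := by
    by_contra h
    push Not at h
    have h1 : (P.card : ℝ) * L ≤ 0 := mul_nonpos_of_nonpos_of_nonneg h hL0.le
    have h2 : 0 < 8 * x * X := by positivity
    linarith
  set ρ : ℝ := P.card * L / (4 * x) with hρ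
  have hρ0 : 0 < ρ := by positivity
  have hXρ : 2 * X ≤ ρ := by
    rw [hρ, le_div_iff₀ (by positivity)]
    linarith
  set bad := (range J).filter (fun j : ℕ =>
      ((cov P a (Ioc (A + j * L) (A + (j + 1) * L))).card : ℝ) ≤ X) with hbad
  have key : ∀ j ∈ bad, ρ ^ 2 / 2 ≤
      X * ∑ n ∈ Ioc (A + j * L) (A + (j + 1) * L), (o P a n : ℝ) := by
    intro j hj
    rw [hbad, mem_filter] at hj
    have hcs := cs P a (Ioc (A + j * L) (A + (j + 1) * L))
    have hr := sum_r_ge hP a (A + j * L) (A + (j + 1) * L)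
    have e1 : (((A + ((j : ℤ) + 1) * (L : ℤ) : ℤ) : ℝ) - ((A + (j : ℤ) * (L : ℤ) : ℤ) : ℝ)) = L := by
      push_cast
      ring
    rw [e1] at hr
    have hs := sum_recip_ge hP hx hL0.le
    set R : ℝ := ((∑ n ∈ Ioc (A + j * L) (A + (j + 1) * L), r P a n : ℕ) : ℝ) with hR
    set O : ℝ := ((∑ n ∈ Ioc (A + j * L) (A + (j + 1) * L), o P a n : ℕ) : ℝ) with hO
    have hRρ : ρ ≤ R := by
      have h1 : (P.card : ℝ) * (L / (2 * x)) = 2 * ρ := by
        rw [hρ]
        field_simp
        ring
      have h2 : (P.card : ℝ) ≤ ρ := by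
        rw [hρ, le_div_iff₀ (by positivity)]
        nlinarith
      linarith
    have hR0 : 0 ≤ R := by linarith
    have hO0 : 0 ≤ O := by rw [hO]; positivity
    have h3 : R ^ 2 ≤ X * (R + O) := by
      refine hcs.trans ?_
      gcongr
      exact hj.2
    have h4 : X * R ≤ R ^ 2 / 2 := by nlinarith
    have h5 : ρ ^ 2 ≤ R ^ 2 := by nlinarith
    have h6 : ρ ^ 2 / 2 ≤ X * O := by nlinarith
    rw [hO] at h6
    push_cast at h6
    exact h6
  have hsum : (bad.card : ℝ) * (ρ ^ 2 / 2) ≤ X * ((P.card : ℝ) ^ 2 * ((J * L) / x ^ 2 + 1)) := by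
    calc (bad.card : ℝ) * (ρ ^ 2 / 2) = ∑ j ∈ bad, ρ ^ 2 / 2 := by rw [sum_const, nsmul_eq_mul]
      _ ≤ ∑ j ∈ bad, X * ∑ n ∈ Ioc (A + j * L) (A + (j + 1) * L), (o P a n : ℝ) := sum_le_sum key
      _ ≤ ∑ j ∈ range J, X * ∑ n ∈ Ioc (A + j * L) (A + (j + 1) * L), (o P a n : ℝ) := by
        refine sum_le_sum_of_subset_of_nonneg (filter_subset _ _) fun j _ _ => ?_
        exact mul_nonneg hX.le (sum_nonneg fun _ _ => Nat.cast_nonneg _)
      _ = X * ∑ n ∈ Ioc A (A + J * L), (o P a n : ℝ) := by
        rw [← mul_sum, sum_windows]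
      _ ≤ X * ((P.card : ℝ) ^ 2 * ((J * L) / x ^ 2 + 1)) := by
        have h8 := sum_o_le hP hx a (A := A) (B := A + J * L) (by
          have : (0 : ℤ) ≤ J * L := by positivity
          omega)
        have e1 : (((A + (J : ℤ) * (L : ℤ) : ℤ) : ℝ) - A) = J * L := by push_cast; ring
        rw [e1] at h8
        push_cast at h8
        gcongr
  rw [le_div_iff₀ (by positivity)]
  have e2 : (bad.card : ℝ) * (ρ ^ 2 / 2) = (P.card ^ 2 / (32 * x ^ 2)) * (bad.card * (L : ℝ) ^ 2) := by
    rw [hρ]
    field_simp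
    ring
  have e3 : X * ((P.card : ℝ) ^ 2 * ((J * L) / x ^ 2 + 1)) =
      (P.card ^ 2 / (32 * x ^ 2)) * (32 * X * (J * L + x ^ 2)) := by
    field_simp
  rw [e2, e3] at hsum
  exact le_of_mul_le_mul_left hsum (by positivity)

end Pool.Agent.Run7.h338.CW
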