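import Mathlib
import Pool.Agent.Run7.h338.CW.Main

/-!
Dilates of a choice of residue classes by primes.
-/

set_option autoImplicit false

namespace Pool.Agent.Run7.h338.CW

open Finset

/-- the final step, common to all families -/
lemma finish {ι : Type*} [DecidableEq ι] {bad : Finset ι} {c x L X V W : ℝ} (hx : 0 < x) (hc : 0 < c) (hL : 0 < L)
    (hsum : (bad.card : ℝ) * ((c * L / (4 * x)) ^ 2 / 2) ≤ X * (c ^ 2 * (V / x ^ 2 + 1) * W)) :
    (bad.card : ℝ) ≤ 32 * W * X * (V + x ^ 2) / L ^ 2 := by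
  rw [le_div_iff₀ (by positivity)]
  have e2 : (bad.card : ℝ) * ((c * L / (4 * x)) ^ 2 / 2) = (c ^ 2 / (32 * x ^ 2)) * (bad.card * L ^ 2) := by
    field_simp
    ring
  have e3 : X * (c ^ 2 * (V / x ^ 2 + 1) * W) = (c ^ 2 / (32 * x ^ 2)) * (32 * W * X * (V + x ^ 2)) := by
    field_simp
  rw [e2, e3] at hsum
  exact le_of_mul_le_mul_left hsum (by positivity)

/-- Points of large slope distance. -/
lemma slopes (W : Finset (ℕ × ℤ)) (U N : ℕ) (hU : 0 < U) (D : ℕ) (hD : 0 < D)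
    (h1 : ∀ w ∈ W, U < w.1 ∧ w.1 ≤ 2 * U ∧ w.1.Prime ∧ 0 < w.2 ∧ w.2 ≤ N ∧ ¬ (w.1 : ℤ) ∣ w.2)
    (h2 : ∀ w ∈ W, ∀ w' ∈ W, (D : ℤ) ∣ w.2 * w'.1 - w'.2 * w.1) :
    (W.card : ℝ) ≤ 4 * U * N / D + 1 := by
  classical
  have hU' : (0 : ℝ) < U := by exact_mod_cast hU
  have hD' : (0 : ℝ) < D := by exact_mod_cast hD
  set c : ℝ := 4 * U ^ 2 / D with hc
  have hc0 : 0 < c := by positivity
  set φ : ℕ × ℤ → ℕ := fun w => ⌊((w.2 : ℝ) / w.1) * c⌋₊ with hφ
  have hcard : W.card ≤ (range (⌊4 * (U : ℝ) * N / D⌋₊ + 1)).card := by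
    refine card_le_card_of_injOn φ ?_ ?_
    · intro w hw
      obtain ⟨ha, hb, hpr, hn0, hnN, hnd⟩ := h1 w hw
      rw [coe_range, Set.mem_Iio, Nat.lt_succ_iff]
      refine Nat.floor_le_floor ?_
      have ha' : (U : ℝ) < w.1 := by exact_mod_cast ha
      have hn0' : (0 : ℝ) < w.2 := by exact_mod_cast hn0
      have hnN' : (w.2 : ℝ) ≤ N := by exact_mod_cast hnN
      have h3 : (w.2 : ℝ) / w.1 ≤ N / U := by gcongr
      calc ((w.2 : ℝ) / w.1) * c ≤ (N / U) * c := by gcongr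
        _ = 4 * (U : ℝ) * N / D := by
          rw [hc]
          field_simp
    · intro w hw w' hw' heq
      obtain ⟨ha, hb, hpr, hn0, hnN, hnd⟩ := h1 w hw
      obtain ⟨ha', hb', hpr', hn0', hnN', hnd'⟩ := h1 w' hw'
      have hw1 : (0 : ℝ) < w.1 := by exact_mod_cast hpr.pos
      have hw1' : (0 : ℝ) < w'.1 := by exact_mod_cast hpr'.pos
      have hzero : w.2 * w'.1 - w'.2 * w.1 = 0 := by
        by_contra hne
        have h3 : (D : ℤ) ≤ |w.2 * w'.1 - w'.2 * w.1| :=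
          Int.le_of_dvd (abs_pos.2 hne) ((dvd_abs _ _).2 (h2 w hw w' hw'))
        have h4 : (D : ℝ) ≤ |(w.2 : ℝ) * w'.1 - w'.2 * w.1| := by exact_mod_cast h3
        have hs0 : 0 ≤ ((w.2 : ℝ) / w.1) * c := by
          have : (0 : ℝ) < w.2 := by exact_mod_cast hn0
          positivity
        have hs0' : 0 ≤ ((w'.2 : ℝ) / w'.1) * c := by
          have : (0 : ℝ) < w'.2 := by exact_mod_cast hn0'
          positivity
        have hfl : ⌊((w.2 : ℝ) / w.1) * c⌋₊ = ⌊((w'.2 : ℝ) / w'.1) * c⌋₊ := heq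
        have f1 := Nat.floor_le hs0
        have f2 := Nat.lt_floor_add_one (((w.2 : ℝ) / w.1) * c)
        have f1' := Nat.floor_le hs0'
        have f2' := Nat.lt_floor_add_one (((w'.2 : ℝ) / w'.1) * c)
        rw [hfl] at f1 f2
        have h5 : |((w.2 : ℝ) / w.1) * c - ((w'.2 : ℝ) / w'.1) * c| < 1 := by
          rw [abs_lt]
          constructor <;> linarith
        have h6 : ((w.2 : ℝ) / w.1) * c - ((w'.2 : ℝ) / w'.1) * c =
            ((w.2 : ℝ) * w'.1 - w'.2 * w.1) * (c / (w.1 * w'.1)) := by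
          field_simp
        rw [h6, abs_mul, abs_of_pos (show 0 < c / ((w.1 : ℝ) * w'.1) by positivity)] at h5
        have hb1 : (w.1 : ℝ) ≤ 2 * U := by exact_mod_cast hb
        have hb1' : (w'.1 : ℝ) ≤ 2 * U := by exact_mod_cast hb'
        have h7 : 1 / (D : ℝ) ≤ c / ((w.1 : ℝ) * w'.1) := by
          rw [hc, div_div, div_le_div_iff₀ (by positivity) (by positivity)]
          have : (w.1 : ℝ) * w'.1 ≤ (2 * U) * (2 * U) := by gcongr
          nlinarith
        have h8 : (1 : ℝ) ≤ |(w.2 : ℝ) * w'.1 - w'.2 * w.1| * (c / ((w.1 : ℝ) * w'.1)) := by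
          calc (1 : ℝ) = D * (1 / D) := by field_simp
            _ ≤ _ := by gcongr
        linarith
      have hmul : w.2 * w'.1 = w'.2 * w.1 := by linarith
      have hdv : (w.1 : ℤ) ∣ w.2 * w'.1 := by rw [hmul]; exact dvd_mul_left _ _
      have hdv' : (w.1 : ℤ) ∣ (w'.1 : ℤ) := by
        rcases (Nat.prime_iff_prime_int.1 hpr).dvd_or_dvd hdv with h | h
        · exact absurd h hnd
        · exact h
      have h9 : w.1 = w'.1 := by
        have h10 : w.1 ∣ w'.1 := by exact_mod_cast hdv'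
        exact (Nat.prime_dvd_prime_iff_eq hpr hpr').1 h10
      have h11 : w.2 = w'.2 := by
        rw [h9] at hmul
        have : (w'.1 : ℤ) ≠ 0 := by exact_mod_cast hpr'.ne_zero
        exact mul_right_cancel₀ this hmul
      exact Prod.ext h9 h11
  rw [card_range] at hcard
  have h3 : (W.card : ℝ) ≤ (⌊4 * (U : ℝ) * N / D⌋₊ : ℝ) + 1 := by exact_mod_cast hcard
  have h4 : (⌊4 * (U : ℝ) * N / D⌋₊ : ℝ) ≤ 4 * (U : ℝ) * N / D := Nat.floor_le (by positivity)
  linarith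

open Classical in
/-- two classes in an interval, sharper -/
lemma pair_upper' {A B : ℤ} (hAB : A ≤ B) (v w : ℤ) {p q : ℕ} (hp : p.Prime) (hq : q.Prime)
    (hpq : p ≠ q) :
    (((Ioc A B).filter (fun n : ℤ => n ≡ v [ZMOD (p : ℤ)] ∧ n ≡ w [ZMOD (q : ℤ)])).card : ℝ) ≤
      ((B : ℝ) - A) / (p * q) + 1 := by
  have hAB' : (0 : ℝ) ≤ (B : ℝ) - A := by
    have : (A : ℝ) ≤ B := by exact_mod_cast hAB
    linarith
  rcases ((Ioc A B).filter (fun n : ℤ => n ≡ v [ZMOD (p : ℤ)] ∧ n ≡ w [ZMOD (q : ℤ)])).eq_empty_or_nonempty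
    with h | ⟨n0, h0⟩
  · rw [h, card_empty]
    push_cast
    positivity
  · rw [mem_filter] at h0
    have hsub : (Ioc A B).filter (fun n : ℤ => n ≡ v [ZMOD (p : ℤ)] ∧ n ≡ w [ZMOD (q : ℤ)]) ⊆
        (Ioc A B).filter (fun n : ℤ => n ≡ n0 [ZMOD ((p * q : ℕ) : ℤ)]) := by
      intro n hn
      rw [mem_filter] at hn ⊢
      refine ⟨hn.1, ?_⟩
      have hc : ((p : ℤ)).natAbs.Coprime ((q : ℤ)).natAbs := by
        simpa using (Nat.coprime_primes hp hq).2 hpq
      have := (Int.modEq_and_modEq_iff_modEq_mul hc).1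
        ⟨hn.2.1.trans h0.2.1.symm, hn.2.2.trans h0.2.2.symm⟩
      push_cast
      exact this
    have h1 := cls_upper hAB n0 (Nat.mul_pos hp.pos hq.pos)
    have h2 : (((Ioc A B).filter (fun n : ℤ => n ≡ v [ZMOD (p : ℤ)] ∧ n ≡ w [ZMOD (q : ℤ)])).card : ℝ) ≤
        (((Ioc A B).filter (fun n : ℤ => n ≡ n0 [ZMOD ((p * q : ℕ) : ℤ)])).card : ℝ) := by
      exact_mod_cast card_le_card hsub
    refine h2.trans (h1.trans (le_of_eq ?_))
    push_cast
    rfl

open Classical in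
/-- few bad dilates -/
theorem main3 {P : Finset ℕ} {x : ℝ} (hP : Near P x) (hx : 0 < x) (a : ℕ → ℤ) (N U : ℕ)
    (hU : 8 ≤ U) (hUx : 2 * (U : ℝ) < x) (hN : 11 * x ≤ N) (X : ℝ) (hX : 0 < X)
    (hXP : 8 * x * X ≤ P.card * N) :
    (((Ioc U (2 * U)).filter (fun u : ℕ => u.Prime ∧
      ((cov P (fun p => u * a p) (Ioc 0 (N : ℤ))).card : ℝ) ≤ X)).card : ℝ) ≤
      32 * X * (4 * U * N + x ^ 2) / (N : ℝ) ^ 2 := by
  have hN0 : (0 : ℝ) < N := by linarith
  have hP0 : (0 : ℝ) < P.card := by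
    by_contra h
    push Not at h
    have h1 : (P.card : ℝ) * N ≤ 0 := mul_nonpos_of_nonpos_of_nonneg h hN0.le
    have h2 : 0 < 8 * x * X := by positivity
    linarith
  set ρ : ℝ := P.card * N / (4 * x) with hρ
  have hρ0 : 0 < ρ := by positivity
  have hXρ : 2 * X ≤ ρ := by
    rw [hρ, le_div_iff₀ (by positivity)]
    linarith
  set bad := (Ioc U (2 * U)).filter (fun u : ℕ => u.Prime ∧
      ((cov P (fun p => u * a p) (Ioc 0 (N : ℤ))).card : ℝ) ≤ X) with hbad
  set Q := (Ioc U (2 * U)).filter (fun u : ℕ => u.Prime) with hQ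
  set I : ℕ → Finset ℤ := fun u => (Ioc 0 (N : ℤ)).filter (fun n : ℤ => ¬ (u : ℤ) ∣ n) with hI
  have key : ∀ u ∈ bad, ρ ^ 2 / 2 ≤ X * ∑ n ∈ I u, (o P (fun p => u * a p) n : ℝ) := by
    intro u hu
    rw [hbad, mem_filter, mem_Ioc] at hu
    obtain ⟨⟨hu1, hu2⟩, hup, hcov⟩ := hu
    have hcs := cs P (fun p => u * a p) (I u)
    set R : ℝ := ((∑ n ∈ I u, r P (fun p => u * a p) n : ℕ) : ℝ) with hR
    set O : ℝ := ((∑ n ∈ I u, o P (fun p => u * a p) n : ℕ) : ℝ) with hO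
    have hRρ : ρ ≤ R := by
      rw [hR, sum_r]
      push_cast
      have h1 : ∑ p ∈ P, ((N : ℝ) / (4 * x)) ≤ ∑ p ∈ P,
          (((I u).filter (fun n : ℤ => n ≡ u * a p [ZMOD (p : ℤ)])).card : ℝ) := by
        refine sum_le_sum fun p hp => ?_
        have hpp := hP p hp
        have hpu : p ≠ u := by
          rintro rfl
          have : (p : ℝ) ≤ 2 * U := by exact_mod_cast hu2
          linarith [hpp.2.1]
        have hlow := cls_lower 0 (N : ℤ) (u * a p) hpp.1.pos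
        have hup' := pair_upper' (A := 0) (B := (N : ℤ)) (by positivity) (u * a p) 0 hpp.1 hup hpu
        have hsplit : ((Ioc 0 (N : ℤ)).filter (fun n : ℤ => n ≡ u * a p [ZMOD (p : ℤ)])).card ≤
            ((I u).filter (fun n : ℤ => n ≡ u * a p [ZMOD (p : ℤ)])).card +
            ((Ioc 0 (N : ℤ)).filter (fun n : ℤ => n ≡ u * a p [ZMOD (p : ℤ)] ∧
              n ≡ 0 [ZMOD (u : ℤ)])).card := by
          refine (card_le_card ?_).trans (card_union_le _ _)
          intro n hn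
          rw [mem_filter] at hn
          rw [mem_union]
          by_cases hd : (u : ℤ) ∣ n
          · right
            rw [mem_filter]
            exact ⟨hn.1, hn.2, (Int.modEq_zero_iff_dvd).2 hd⟩
          · left
            rw [mem_filter, hI, mem_filter]
            exact ⟨⟨hn.1, hd⟩, hn.2⟩
        have hsplit' : (((Ioc 0 (N : ℤ)).filter (fun n : ℤ => n ≡ u * a p [ZMOD (p : ℤ)])).card : ℝ) ≤
            (((I u).filter (fun n : ℤ => n ≡ u * a p [ZMOD (p : ℤ)])).card : ℝ) +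
            (((Ioc 0 (N : ℤ)).filter (fun n : ℤ => n ≡ u * a p [ZMOD (p : ℤ)] ∧
              n ≡ 0 [ZMOD (u : ℤ)])).card : ℝ) := by exact_mod_cast hsplit
        have e0 : (((N : ℤ) : ℝ) - ((0 : ℤ) : ℝ)) = N := by push_cast; ring
        rw [e0] at hlow hup'
        have hp0 : (0 : ℝ) < p := by exact_mod_cast hpp.1.pos
        have hu8 : (8 : ℝ) ≤ u := by exact_mod_cast (by omega : 8 ≤ u)
        have h2 : (N : ℝ) / (p * u) ≤ (N / p) / 8 := by
          rw [div_div]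
          gcongr
        have h3 : (N : ℝ) / (2 * x) ≤ N / p := by
          gcongr
          exact hpp.2.2.le
        have h4 : (N : ℝ) / (2 * x) = 2 * (N / (4 * x)) := by
          field_simp
          ring
        have h5 : (11 : ℝ) / 4 ≤ N / (4 * x) := by
          rw [div_le_div_iff₀ (by norm_num) (by positivity)]
          linarith
        linarith
      rw [sum_const, nsmul_eq_mul] at h1
      have e1 : (P.card : ℝ) * (N / (4 * x)) = ρ := by rw [hρ]; ring
      rw [e1] at h1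
      exact h1
    have hR0 : 0 ≤ R := by linarith
    have hO0 : 0 ≤ O := by rw [hO]; positivity
    have hcov' : ((cov P (fun p => u * a p) (I u)).card : ℝ) ≤ X := by
      refine le_trans ?_ hcov
      have : cov P (fun p => u * a p) (I u) ⊆ cov P (fun p => u * a p) (Ioc 0 (N : ℤ)) := by
        intro n hn
        unfold cov at hn ⊢
        rw [mem_filter, hI, mem_filter] at hn
        rw [mem_filter]
        exact ⟨hn.1.1, hn.2⟩
      exact_mod_cast card_le_card this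
    have h3 : R ^ 2 ≤ X * (R + O) := by
      refine hcs.trans ?_
      gcongr
    have h4 : X * R ≤ R ^ 2 / 2 := by nlinarith
    have h5 : ρ ^ 2 ≤ R ^ 2 := by nlinarith
    have h6 : ρ ^ 2 / 2 ≤ X * O := by nlinarith
    rw [hO] at h6
    push_cast at h6
    exact h6
  have htot : ∑ u ∈ Q, ∑ n ∈ I u, (o P (fun p => u * a p) n : ℝ) ≤
      (P.card : ℝ) ^ 2 * ((4 * U * N) / x ^ 2 + 1) := by
    have h1 : ∀ u ∈ Q, ∑ n ∈ I u, (o P (fun p => u * a p) n : ℝ) = ∑ z ∈ P.offDiag,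
        (((I u).filter (fun n : ℤ => n ≡ u * a z.1 [ZMOD (z.1 : ℤ)] ∧
          n ≡ u * a z.2 [ZMOD (z.2 : ℤ)])).card : ℝ) := by
      intro u _
      have := sum_o P (fun p => u * a p) (I u)
      exact_mod_cast this
    rw [sum_congr rfl h1, sum_comm]
    have h2 : ∀ z ∈ P.offDiag, ∑ u ∈ Q, (((I u).filter (fun n : ℤ => n ≡ u * a z.1 [ZMOD (z.1 : ℤ)] ∧
          n ≡ u * a z.2 [ZMOD (z.2 : ℤ)])).card : ℝ) ≤ (4 * U * N) / x ^ 2 + 1 := by
      intro z hz
      rw [mem_offDiag] at hz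
      have hp := hP _ hz.1
      have hq := hP _ hz.2.1
      set W : Finset (ℕ × ℤ) := (Q ×ˢ Ioc 0 (N : ℤ)).filter (fun w : ℕ × ℤ => (¬ (w.1 : ℤ) ∣ w.2) ∧
        w.2 ≡ w.1 * a z.1 [ZMOD (z.1 : ℤ)] ∧ w.2 ≡ w.1 * a z.2 [ZMOD (z.2 : ℤ)]) with hW
      have e1 : ∑ u ∈ Q, (((I u).filter (fun n : ℤ => n ≡ u * a z.1 [ZMOD (z.1 : ℤ)] ∧
          n ≡ u * a z.2 [ZMOD (z.2 : ℤ)])).card : ℝ) = W.card := by
        rw [hW, card_filter, sum_product]
        push_cast
        refine sum_congr rfl fun u _ => ?_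
        rw [hI]
        simp only
        rw [filter_filter, card_filter]
        push_cast
        rfl
      rw [e1]
      have hsl := slopes W U N (by omega) (z.1 * z.2) (Nat.mul_pos hp.1.pos hq.1.pos) ?_ ?_
      · refine hsl.trans ?_
        have h3 : x ^ 2 ≤ ((z.1 * z.2 : ℕ) : ℝ) := by
          push_cast
          nlinarith [hp.2.1, hq.2.1]
        gcongr
      · intro w hw
        rw [hW, mem_filter, mem_product, hQ, mem_filter, mem_Ioc, mem_Ioc] at hw
        obtain ⟨⟨⟨⟨g1, g2⟩, g3⟩, g4, g5⟩, g6, _⟩ := hw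
        exact ⟨g1, g2, g3, g4, g5, g6⟩
      · intro w hw w' hw'
        rw [hW, mem_filter] at hw hw'
        have hcop : IsCoprime (z.1 : ℤ) (z.2 : ℤ) := by
          rw [Nat.isCoprime_iff_coprime]
          exact (Nat.coprime_primes hp.1 hq.1).2 hz.2.2
        push_cast
        refine hcop.mul_dvd ?_ ?_
        · have g1 := hw.2.2.1.mul_right (w'.1 : ℤ)
          have g2 := hw'.2.2.1.mul_right (w.1 : ℤ)
          have e2 : (w'.1 : ℤ) * a z.1 * w.1 = w.1 * a z.1 * w'.1 := by ring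
          rw [e2] at g2
          exact (g2.trans g1.symm).dvd
        · have g1 := hw.2.2.2.mul_right (w'.1 : ℤ)
          have g2 := hw'.2.2.2.mul_right (w.1 : ℤ)
          have e2 : (w'.1 : ℤ) * a z.2 * w.1 = w.1 * a z.2 * w'.1 := by ring
          rw [e2] at g2
          exact (g2.trans g1.symm).dvd
    refine (sum_le_sum h2).trans ?_
    rw [sum_const, nsmul_eq_mul]
    refine mul_le_mul_of_nonneg_right ?_ (by positivity)
    have h2 : P.offDiag.card ≤ P.card * P.card := by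
      rw [offDiag_card]
      omega
    have h3 : (P.offDiag.card : ℝ) ≤ ((P.card * P.card : ℕ) : ℝ) := by exact_mod_cast h2
    push_cast at h3
    nlinarith
  have hsum : (bad.card : ℝ) * (ρ ^ 2 / 2) ≤ X * ((P.card : ℝ) ^ 2 * ((4 * U * N) / x ^ 2 + 1) * 1) := by
    calc (bad.card : ℝ) * (ρ ^ 2 / 2) = ∑ j ∈ bad, ρ ^ 2 / 2 := by rw [sum_const, nsmul_eq_mul]
      _ ≤ ∑ u ∈ bad, X * ∑ n ∈ I u, (o P (fun p => u * a p) n : ℝ) := sum_le_sum key
      _ ≤ ∑ u ∈ Q, X * ∑ n ∈ I u, (o P (fun p => u * a p) n : ℝ) := by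
        refine sum_le_sum_of_subset_of_nonneg ?_ fun j _ _ => ?_
        · intro u hu
          rw [hbad, mem_filter] at hu
          rw [hQ, mem_filter]
          exact ⟨hu.1, hu.2.1⟩
        · exact mul_nonneg hX.le (sum_nonneg fun _ _ => Nat.cast_nonneg _)
      _ = X * ∑ u ∈ Q, ∑ n ∈ I u, (o P (fun p => u * a p) n : ℝ) := by
        rw [mul_sum]
      _ ≤ X * ((P.card : ℝ) ^ 2 * ((4 * U * N) / x ^ 2 + 1) * 1) := by
        rw [mul_one]
        gcongr
  have := finish (bad := bad) hx hP0 hN0 hsum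
  simpa using this

end Pool.Agent.Run7.h338.CW
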