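import Mathlib
import Pool.Agent.Run7.h338.CW.Dil

/-!
A choice of residue classes along the homogeneous progressions `u, 2 u, …, N u`, `u` prime.
-/

set_option autoImplicit false

namespace Pool.Agent.Run7.h338.CW

open Finset

lemma card_primeFactors_le (m : ℕ) (hm : m ≠ 0) : m.primeFactors.card ≤ Nat.log 2 m := by
  have h1 : 2 ^ m.primeFactors.card ≤ m := by
    calc 2 ^ m.primeFactors.card = ∏ _p ∈ m.primeFactors, 2 := by rw [prod_const]
      _ ≤ ∏ p ∈ m.primeFactors, p := by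
        refine prod_le_prod' fun p hp => ?_
        exact (Nat.prime_of_mem_primeFactors hp).two_le
      _ ≤ m := Nat.le_of_dvd (Nat.pos_of_ne_zero hm) (Nat.prod_primeFactors_dvd m)
  exact Nat.le_log_of_pow_le (by norm_num) h1

/-- the choice `a / u` -/
noncomputable def quo (a : ℕ → ℤ) (u p : ℕ) : ℤ := (((a p : ZMod p) * ((u : ZMod p))⁻¹).val : ℤ)

lemma quo_iff (a : ℕ → ℤ) {u p : ℕ} (hp : p.Prime) (hu : u.Prime) (hne : p ≠ u) (n : ℤ) :
    n ≡ quo a u p [ZMOD (p : ℤ)] ↔ u * n ≡ a p [ZMOD (p : ℤ)] := by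
  have : Fact p.Prime := ⟨hp⟩
  have hu0 : (u : ZMod p) ≠ 0 := by
    intro h
    rw [ZMod.natCast_eq_zero_iff] at h
    exact hne ((Nat.prime_dvd_prime_iff_eq hp hu).1 h)
  rw [← ZMod.intCast_eq_intCast_iff, ← ZMod.intCast_eq_intCast_iff]
  unfold quo
  push_cast
  rw [ZMod.natCast_val, ZMod.cast_id', id]
  constructor
  · intro h
    rw [h]
    field_simp
  · intro h
    rw [← h]
    field_simp

open Classical in
/-- few bad homogeneous progressions -/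
theorem main4 {P : Finset ℕ} {x : ℝ} (hP : Near P x) (hx : 0 < x) (a : ℕ → ℤ) (N U : ℕ)
    (hU : 1 ≤ U) (hUx : 2 * (U : ℝ) < x) (hN : 4 * x ≤ N) (X : ℝ) (hX : 0 < X)
    (hXP : 8 * x * X ≤ P.card * N) :
    (((Ioc U (2 * U)).filter (fun u : ℕ => u.Prime ∧
      ((((Ioc 0 (N : ℤ)).filter (fun n : ℤ => ∃ p ∈ P, u * n ≡ a p [ZMOD (p : ℤ)])).card : ℝ) ≤ X))).card
        : ℝ) ≤
      32 * (Nat.log 2 (2 * U * N) : ℝ) * X * (2 * U * N + x ^ 2) / (N : ℝ) ^ 2 := by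
  have hN0 : (0 : ℝ) < N := by linarith
  have hP0 : (0 : ℝ) < P.card := by
    by_contra h
    push Not at h
    have h1 : (P.card : ℝ) * N ≤ 0 := mul_nonpos_of_nonpos_of_nonneg h hN0.le
    have h2 : 0 < 8 * x * X := by positivity
    linarith
  set ρ : ℝ := P.card * N / (4 * x) with hρ
  have hρ0 : 0 < ρ := by positivity
  have hXρ : 2 * X ≤ ρ := by
    rw [hρ, le_div_iff₀ (by positivity)]
    linarith
  set bad := (Ioc U (2 * U)).filter (fun u : ℕ => u.Prime ∧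
      ((((Ioc 0 (N : ℤ)).filter (fun n : ℤ => ∃ p ∈ P, u * n ≡ a p [ZMOD (p : ℤ)])).card : ℝ) ≤ X)) with hbad
  set Q := (Ioc U (2 * U)).filter (fun u : ℕ => u.Prime) with hQ
  have hne : ∀ u ∈ Q, ∀ p ∈ P, p ≠ u := by
    rintro u hu p hp rfl
    rw [hQ, mem_filter, mem_Ioc] at hu
    have : (p : ℝ) ≤ 2 * U := by exact_mod_cast hu.1.2
    linarith [(hP p hp).2.1]
  have hsub : bad ⊆ Q := by
    intro u hu
    rw [hbad, mem_filter] at hu
    rw [hQ, mem_filter]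
    exact ⟨hu.1, hu.2.1⟩
  have key : ∀ u ∈ bad, ρ ^ 2 / 2 ≤ X * ∑ n ∈ Ioc 0 (N : ℤ), (o P (quo a u) n : ℝ) := by
    intro u hu'
    have huQ := hsub hu'
    rw [hbad, mem_filter, mem_Ioc] at hu'
    obtain ⟨⟨hu1, hu2⟩, hup, hcov⟩ := hu'
    have hcs := cs P (quo a u) (Ioc 0 (N : ℤ))
    have hr := sum_r_ge hP (quo a u) 0 (N : ℤ)
    have e0 : (((N : ℤ) : ℝ) - ((0 : ℤ) : ℝ)) = N := by push_cast; ring
    rw [e0] at hr
    have hs := sum_recip_ge hP hx hN0.le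
    set R : ℝ := ((∑ n ∈ Ioc 0 (N : ℤ), r P (quo a u) n : ℕ) : ℝ) with hR
    set O : ℝ := ((∑ n ∈ Ioc 0 (N : ℤ), o P (quo a u) n : ℕ) : ℝ) with hO
    have hRρ : ρ ≤ R := by
      have h1 : (P.card : ℝ) * (N / (2 * x)) = 2 * ρ := by
        rw [hρ]
        field_simp
        ring
      have h2 : (P.card : ℝ) ≤ ρ := by
        rw [hρ, le_div_iff₀ (by positivity)]
        nlinarith
      linarith
    have hR0 : 0 ≤ R := by linarith
    have hO0 : 0 ≤ O := by rw [hO]; positivity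
    have hcov' : ((cov P (quo a u) (Ioc 0 (N : ℤ))).card : ℝ) ≤ X := by
      refine le_trans ?_ hcov
      have : cov P (quo a u) (Ioc 0 (N : ℤ)) ⊆
          (Ioc 0 (N : ℤ)).filter (fun n : ℤ => ∃ p ∈ P, u * n ≡ a p [ZMOD (p : ℤ)]) := by
        intro n hn
        unfold cov at hn
        rw [mem_filter] at hn ⊢
        obtain ⟨h1, p, hp, h2⟩ := hn
        exact ⟨h1, p, hp, (quo_iff a (hP p hp).1 hup (hne u huQ p hp) n).1 h2⟩
      exact_mod_cast card_le_card this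
    have h3 : R ^ 2 ≤ X * (R + O) := by
      refine hcs.trans ?_
      gcongr
    have h4 : X * R ≤ R ^ 2 / 2 := by nlinarith
    have h5 : ρ ^ 2 ≤ R ^ 2 := by nlinarith
    have h6 : ρ ^ 2 / 2 ≤ X * O := by nlinarith
    rw [hO] at h6
    push_cast at h6
    exact h6
  set κ : ℕ := Nat.log 2 (2 * U * N) with hκ
  have htot : ∑ u ∈ Q, ∑ n ∈ Ioc 0 (N : ℤ), (o P (quo a u) n : ℝ) ≤
      (P.card : ℝ) ^ 2 * ((2 * U * N) / x ^ 2 + 1) * κ := by
    have h1 : ∀ u ∈ Q, ∑ n ∈ Ioc 0 (N : ℤ), (o P (quo a u) n : ℝ) = ∑ z ∈ P.offDiag,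
        (((Ioc 0 (N : ℤ)).filter (fun n : ℤ => u * n ≡ a z.1 [ZMOD (z.1 : ℤ)] ∧
          u * n ≡ a z.2 [ZMOD (z.2 : ℤ)])).card : ℝ) := by
      intro u hu
      have hup : u.Prime := by
        rw [hQ, mem_filter] at hu
        exact hu.2
      have h2 := sum_o P (quo a u) (Ioc 0 (N : ℤ))
      have h3 : ∑ z ∈ P.offDiag,
          ((Ioc 0 (N : ℤ)).filter (fun n : ℤ => n ≡ quo a u z.1 [ZMOD (z.1 : ℤ)] ∧
            n ≡ quo a u z.2 [ZMOD (z.2 : ℤ)])).card = ∑ z ∈ P.offDiag,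
          ((Ioc 0 (N : ℤ)).filter (fun n : ℤ => u * n ≡ a z.1 [ZMOD (z.1 : ℤ)] ∧
            u * n ≡ a z.2 [ZMOD (z.2 : ℤ)])).card := by
        refine sum_congr rfl fun z hz => ?_
        rw [mem_offDiag] at hz
        congr 1
        refine filter_congr fun n _ => ?_
        rw [quo_iff a (hP _ hz.1).1 hup (hne u hu _ hz.1) n,
          quo_iff a (hP _ hz.2.1).1 hup (hne u hu _ hz.2.1) n]
      rw [h3] at h2
      exact_mod_cast h2
    rw [sum_congr rfl h1, sum_comm]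
    have h2 : ∀ z ∈ P.offDiag, ∑ u ∈ Q, (((Ioc 0 (N : ℤ)).filter
          (fun n : ℤ => u * n ≡ a z.1 [ZMOD (z.1 : ℤ)] ∧
          u * n ≡ a z.2 [ZMOD (z.2 : ℤ)])).card : ℝ) ≤ ((2 * U * N) / x ^ 2 + 1) * κ := by
      intro z hz
      rw [mem_offDiag] at hz
      have hp := hP _ hz.1
      have hq := hP _ hz.2.1
      set W : Finset (ℕ × ℤ) := (Q ×ˢ Ioc 0 (N : ℤ)).filter (fun w : ℕ × ℤ =>
        w.1 * w.2 ≡ a z.1 [ZMOD (z.1 : ℤ)] ∧ w.1 * w.2 ≡ a z.2 [ZMOD (z.2 : ℤ)]) with hW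
      have e1 : ∑ u ∈ Q, (((Ioc 0 (N : ℤ)).filter (fun n : ℤ => u * n ≡ a z.1 [ZMOD (z.1 : ℤ)] ∧
          u * n ≡ a z.2 [ZMOD (z.2 : ℤ)])).card : ℝ) = W.card := by
        rw [hW, card_filter, sum_product]
        push_cast
        refine sum_congr rfl fun u _ => ?_
        rw [card_filter]
        push_cast
        rfl
      rw [e1]
      set f : ℕ × ℤ → ℤ := fun w => w.1 * w.2 with hf
      have himg : W.image f ⊆ (Ioc 0 ((2 * U * N : ℕ) : ℤ)).filter (fun m : ℤ =>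
          m ≡ a z.1 [ZMOD (z.1 : ℤ)] ∧ m ≡ a z.2 [ZMOD (z.2 : ℤ)]) := by
        intro m hm
        rw [mem_image] at hm
        obtain ⟨w, hw, rfl⟩ := hm
        rw [hW, mem_filter, mem_product, hQ, mem_filter, mem_Ioc, mem_Ioc] at hw
        obtain ⟨⟨⟨⟨g1, g2⟩, g3⟩, g4, g5⟩, g6, g7⟩ := hw
        rw [mem_filter, mem_Ioc]
        refine ⟨⟨?_, ?_⟩, g6, g7⟩
        · have : (0 : ℤ) < w.1 := by exact_mod_cast g3.pos
          exact mul_pos this g4
        · push_cast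
          have : (w.1 : ℤ) ≤ 2 * U := by exact_mod_cast g2
          exact mul_le_mul this g5 g4.le (by positivity)
      have hfib : ∀ m ∈ W.image f, (W.filter (fun w => f w = m)).card ≤ κ := by
        intro m hm
        have hm' := himg hm
        rw [mem_filter, mem_Ioc] at hm'
        obtain ⟨⟨hm0, hm1⟩, _⟩ := hm'
        have hmn : ((m.toNat : ℕ) : ℤ) = m := Int.toNat_of_nonneg hm0.le
        have hm0' : m.toNat ≠ 0 := by omega
        have h3 : (W.filter (fun w => f w = m)).card ≤ m.toNat.primeFactors.card := by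
          refine card_le_card_of_injOn (fun w => w.1) ?_ ?_
          · intro w hw
            rw [mem_coe, mem_filter, hW, mem_filter, mem_product, hQ, mem_filter] at hw
            obtain ⟨⟨⟨⟨_, g3⟩, _⟩, _⟩, g8⟩ := hw
            rw [mem_coe, Nat.mem_primeFactors]
            refine ⟨g3, ?_, hm0'⟩
            have : (w.1 : ℤ) ∣ ((m.toNat : ℕ) : ℤ) := by
              rw [hmn, ← g8]
              exact dvd_mul_right _ _
            exact_mod_cast this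
          · intro w hw w' hw' heq
            rw [mem_coe, mem_filter, hW, mem_filter, mem_product, hQ, mem_filter] at hw hw'
            obtain ⟨⟨⟨⟨_, g3⟩, _⟩, _⟩, g8⟩ := hw
            obtain ⟨⟨⟨⟨_, g3'⟩, _⟩, _⟩, g8'⟩ := hw'
            have heq' : w.1 = w'.1 := heq
            have h4 : (w.1 : ℤ) * w.2 = w'.1 * w'.2 := g8.trans g8'.symm
            rw [heq'] at h4
            have h5 : (w'.1 : ℤ) ≠ 0 := by exact_mod_cast g3'.ne_zero
            exact Prod.ext heq' (mul_left_cancel₀ h5 h4)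
        refine h3.trans ((card_primeFactors_le _ hm0').trans ?_)
        refine Nat.log_mono_right ?_
        omega
      have h5 := card_le_mul_card_image (f := f) W κ hfib
      have h6 := card_le_card himg
      have h7 := pair_upper (A := 0) (B := ((2 * U * N : ℕ) : ℤ)) (by positivity) (a z.1) (a z.2)
        hp.1 hq.1 hz.2.2 hx hp.2.1 hq.2.1
      have h8 : (W.card : ℝ) ≤ κ * (((Ioc 0 ((2 * U * N : ℕ) : ℤ)).filter (fun m : ℤ =>
          m ≡ a z.1 [ZMOD (z.1 : ℤ)] ∧ m ≡ a z.2 [ZMOD (z.2 : ℤ)])).card : ℝ) := by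
        exact_mod_cast h5.trans (Nat.mul_le_mul_left κ h6)
      have e2 : ((((2 * U * N : ℕ) : ℤ) : ℝ) - ((0 : ℤ) : ℝ)) = 2 * U * N := by push_cast; ring
      rw [e2] at h7
      calc (W.card : ℝ) ≤ κ * (((Ioc 0 ((2 * U * N : ℕ) : ℤ)).filter (fun m : ℤ =>
          m ≡ a z.1 [ZMOD (z.1 : ℤ)] ∧ m ≡ a z.2 [ZMOD (z.2 : ℤ)])).card : ℝ) := h8
        _ ≤ κ * ((2 * U * N) / x ^ 2 + 1) := by gcongr
        _ = _ := by ring
    refine (sum_le_sum h2).trans ?_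
    rw [sum_const, nsmul_eq_mul]
    have h3 : P.offDiag.card ≤ P.card * P.card := by
      rw [offDiag_card]
      omega
    have h4 : (P.offDiag.card : ℝ) ≤ ((P.card * P.card : ℕ) : ℝ) := by exact_mod_cast h3
    push_cast at h4
    have h5 : (P.offDiag.card : ℝ) ≤ (P.card : ℝ) ^ 2 := by nlinarith
    calc (P.offDiag.card : ℝ) * (((2 * U * N) / x ^ 2 + 1) * κ)
        ≤ (P.card : ℝ) ^ 2 * (((2 * U * N) / x ^ 2 + 1) * κ) := by gcongr
      _ = (P.card : ℝ) ^ 2 * ((2 * U * N) / x ^ 2 + 1) * κ := by ring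
  have hsum : (bad.card : ℝ) * (ρ ^ 2 / 2) ≤ X * ((P.card : ℝ) ^ 2 * ((2 * U * N) / x ^ 2 + 1) * κ) := by
    calc (bad.card : ℝ) * (ρ ^ 2 / 2) = ∑ j ∈ bad, ρ ^ 2 / 2 := by rw [sum_const, nsmul_eq_mul]
      _ ≤ ∑ u ∈ bad, X * ∑ n ∈ Ioc 0 (N : ℤ), (o P (quo a u) n : ℝ) := sum_le_sum key
      _ ≤ ∑ u ∈ Q, X * ∑ n ∈ Ioc 0 (N : ℤ), (o P (quo a u) n : ℝ) := by
        refine sum_le_sum_of_subset_of_nonneg hsub fun j _ _ => ?_
        exact mul_nonneg hX.le (sum_nonneg fun _ _ => Nat.cast_nonneg _)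
      _ = X * ∑ u ∈ Q, ∑ n ∈ Ioc 0 (N : ℤ), (o P (quo a u) n : ℝ) := by
        rw [mul_sum]
      _ ≤ X * ((P.card : ℝ) ^ 2 * ((2 * U * N) / x ^ 2 + 1) * κ) := by
        gcongr
  exact finish (bad := bad) hx hP0 hN0 hsum

end Pool.Agent.Run7.h338.CW
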