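import Mathlib
import Pool.Agent.Run7.h338.CW.Hom
import Pool.Agent.Results.MP_bb5cc8_nt.HairbrushExponent

/-!
The primes in `[x, 2 x)`, and the asymptotic estimates.
-/

set_option autoImplicit false

namespace Pool.Agent.Run7.h338.CW

open Finset Filter Topology

/-- the primes `p` with `x ≤ p < 2 x` -/
noncomputable def P (x : ℝ) : Finset ℕ :=
  (Finset.range ⌈2 * x⌉₊).filter (fun p : ℕ => p.Prime ∧ x ≤ (p : ℝ) ∧ (p : ℝ) < 2 * x)

lemma near_P (x : ℝ) : Near (P x) x := by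
  intro p hp
  unfold P at hp
  rw [mem_filter] at hp
  exact hp.2

lemma ev (α ε : ℝ) (hα : 0 < α) (hα1 : α < 1) (hε : 0 < ε) : ∃ N₀ : ℕ, ∀ N : ℕ, N₀ ≤ N →
    2 ≤ N ∧ 11 * (N : ℝ) ^ α ≤ N ∧
    8 * (N : ℝ) ^ α * (N : ℝ) ^ (1 - ε) ≤ ((P ((N : ℝ) ^ α)).card : ℝ) * N := by
  have hten : Tendsto (fun N : ℕ => (N : ℝ) ^ α) atTop atTop :=
    (tendsto_rpow_atTop hα).comp tendsto_natCast_atTop_atTop
  have h := hten.eventually Pool.Agent.Results.MP_bb5cc8_nt.HairbrushExponent.count_primes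
  have h2 : ∀ᶠ N : ℕ in atTop, (11 : ℝ) ≤ (N : ℝ) ^ (1 - α) :=
    ((tendsto_rpow_atTop (show 0 < 1 - α by linarith)).comp
      tendsto_natCast_atTop_atTop).eventually_ge_atTop 11
  have h3 : ∀ᶠ N : ℕ in atTop, 32 * Real.log (N : ℝ) ≤ (N : ℝ) ^ ε := by
    have hl := (isLittleO_log_rpow_atTop hε).bound (show (0 : ℝ) < 1 / 32 by norm_num)
    have hl' := tendsto_natCast_atTop_atTop.eventually hl
    filter_upwards [hl', eventually_ge_atTop 1] with N hN hN1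
    have hN1' : (1 : ℝ) ≤ N := by exact_mod_cast hN1
    rw [Real.norm_of_nonneg (Real.log_nonneg hN1'), Real.norm_of_nonneg (by positivity)] at hN
    linarith
  obtain ⟨N₀, hN₀⟩ := eventually_atTop.1 ((h.and h2).and (h3.and (eventually_ge_atTop 2)))
  refine ⟨N₀, fun N hN => ?_⟩
  obtain ⟨⟨g1, g2⟩, g3, g4⟩ := hN₀ N hN
  have hN0 : (0 : ℝ) < N := by
    have : (2 : ℝ) ≤ N := by exact_mod_cast g4
    linarith
  have g5 : 11 * (N : ℝ) ^ α ≤ N := by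
    calc 11 * (N : ℝ) ^ α ≤ (N : ℝ) ^ (1 - α) * (N : ℝ) ^ α := by gcongr
      _ = N := by rw [← Real.rpow_add hN0]; simp
  refine ⟨g4, g5, ?_⟩
  have g1' : (N : ℝ) ^ α / 4 ≤ ((P ((N : ℝ) ^ α)).card : ℝ) * Real.log (2 * (N : ℝ) ^ α) := g1
  have hxpos : (0 : ℝ) < (N : ℝ) ^ α := by positivity
  have g6 : Real.log (2 * (N : ℝ) ^ α) ≤ Real.log N :=
    Real.log_le_log (by positivity) (by linarith)
  have g7 : (N : ℝ) ^ α ≤ 4 * (((P ((N : ℝ) ^ α)).card : ℝ) * Real.log N) := by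
    have := mul_le_mul_of_nonneg_left g6 (Nat.cast_nonneg (P ((N : ℝ) ^ α)).card : (0 : ℝ) ≤ _)
    linarith
  calc 8 * (N : ℝ) ^ α * (N : ℝ) ^ (1 - ε)
      ≤ 8 * (4 * (((P ((N : ℝ) ^ α)).card : ℝ) * Real.log N)) * (N : ℝ) ^ (1 - ε) := by gcongr
    _ = ((P ((N : ℝ) ^ α)).card : ℝ) * ((32 * Real.log N) * (N : ℝ) ^ (1 - ε)) := by ring
    _ ≤ ((P ((N : ℝ) ^ α)).card : ℝ) * ((N : ℝ) ^ ε * (N : ℝ) ^ (1 - ε)) := by gcongr
    _ = ((P ((N : ℝ) ^ α)).card : ℝ) * N := by rw [← Real.rpow_add hN0]; simp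

/-- the powers of `N` -/
lemma powers {N : ℝ} (hN : 0 < N) (α ε c V : ℝ) :
    c * N ^ (1 - ε) * (V * N + (N ^ α) ^ 2) / N ^ 2 = c * N ^ (-ε) * (V + N ^ (2 * α - 1)) := by
  have e1 : N ^ (1 - ε) = N ^ (-ε) * N := by
    rw [show (1 - ε : ℝ) = -ε + 1 by ring, Real.rpow_add hN, Real.rpow_one]
  have e2 : (N ^ α) ^ 2 = N ^ (2 * α - 1) * N := by
    rw [← Real.rpow_natCast, ← Real.rpow_mul hN.le, show (2 * α - 1 : ℝ) = α * ((2 : ℕ) : ℝ) - 1 by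
      push_cast; ring, Real.rpow_sub hN, Real.rpow_one]
    field_simp
  rw [e1, e2]
  field_simp

end Pool.Agent.Run7.h338.CW
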